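import Mathlib

/-!
# Actions of discrete groups on von Neumann algebras: definitions

All von Neumann algebras are given as sets of bounded operators on a complex Hilbert space.
-/

set_option autoImplicit false

namespace Pool.Agent.H95R3.NS.Pub

/-- the bounded operators on `H` -/
def Op (H : Type) [NormedAddCommGroup H] [InnerProductSpace ℂ H] : Type := H →L[ℂ] H

section

variable {H : Type} [NormedAddCommGroup H] [InnerProductSpace ℂ H]

/-- sum, product (composition), unit of operators -/
@[reducible] noncomputable def opRing : Ring (Op H) := (inferInstance : Ring (H →L[ℂ] H))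

/-- complex multiples of operators -/
@[reducible] noncomputable def opSMul : SMul ℂ (Op H) := (inferInstance : SMul ℂ (H →L[ℂ] H))

/-- the adjoint of an operator -/
@[reducible] noncomputable def opStar [CompleteSpace H] : Star (Op H) := (inferInstance : Star (H →L[ℂ] H))

attribute [instance] opRing opSMul opStar

/-- the vector `x ξ` -/
def ap (x : Op H) (ξ : H) : H := (show H →L[ℂ] H from x) ξ

/-- the inner product of `H`, linear in the second variable -/
noncomputable def ip (ξ η : H) : ℂ := inner ℂ ξ η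

/-- the value at `x` of the normal functional `∑ ⟨ξ_i, x ξ_i⟩` given by the vectors `ξ_i` -/
noncomputable def nrm (ξ : ℕ → H) (x : Op H) : ℂ := ∑' i, ip (ξ i) (ap x (ξ i))

/-- `x` is a complex multiple of the identity -/
def IsScalar (x : Op H) : Prop := ∃ c : ℂ, x = c • (1 : Op H)

/-- the commutant of a set of operators -/
def commutant (M : Set (Op H)) : Set (Op H) := {y | ∀ x ∈ M, x * y = y * x}

/-- `M` is a II₁ factor on `H`: a selfadjoint set of operators equal to its double commutant
(a von Neumann algebra), with centre `ℂ1`, containing infinitely many linearly independent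
operators, with a faithful normal tracial state (normal: `∑ ⟨ξ_i, · ξ_i⟩` with
`∑ ‖ξ_i‖² < ∞`). -/
structure IsIIOneFactor [CompleteSpace H] (M : Set (Op H)) : Prop where
  star_mem : ∀ x ∈ M, star x ∈ M
  bicommutant : commutant (commutant M) = M
  factor : ∀ x ∈ M, x ∈ commutant M → IsScalar x
  infinite : ∃ x : ℕ → Op H, (∀ i, x i ∈ M) ∧
    ∀ (n : ℕ) (c : ℕ → ℂ), (∑ i ∈ Finset.range n, c i • x i = 0) → ∀ i < n, c i = 0
  trace : ∃ ξ : ℕ → H, (Summable fun i => ‖ξ i‖ ^ 2) ∧ nrm ξ 1 = 1 ∧
    (∀ x ∈ M, ∀ y ∈ M, nrm ξ (x * y) = nrm ξ (y * x)) ∧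
    ∀ x ∈ M, nrm ξ (star x * x) = 0 → x = 0

/-- `α` is an action of the discrete group `G` on the von Neumann algebra `M` by
⋆-automorphisms (bijectivity of `α_g` on `M` follows, its inverse being `α_{g⁻¹}`; the values
`α_g(x)` for `x ∉ M` play no role). -/
structure IsAction {G : Type} [Group G] [CompleteSpace H] (M : Set (Op H))
    (α : G → Op H → Op H) : Prop where
  maps : ∀ g, ∀ x ∈ M, α g x ∈ M
  add : ∀ g, ∀ x ∈ M, ∀ y ∈ M, α g (x + y) = α g x + α g y
  mul : ∀ g, ∀ x ∈ M, ∀ y ∈ M, α g (x * y) = α g x * α g y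
  smul : ∀ g, ∀ c : ℂ, ∀ x ∈ M, α g (c • x) = c • α g x
  star : ∀ g, ∀ x ∈ M, α g (star x) = star (α g x)
  one_act : ∀ x ∈ M, α 1 x = x
  mul_act : ∀ g h, ∀ x ∈ M, α (g * h) x = α g (α h x)

end

section

/-- the Hilbert space `ℓ²(G; H)` -/
def L2 (G H : Type) [NormedAddCommGroup H] : Type := lp (fun _ : G => H) 2

variable {G H : Type} [NormedAddCommGroup H]

/-- the norm of `ℓ²(G; H)` -/
@[reducible] noncomputable def l2Group : NormedAddCommGroup (L2 G H) :=
  (inferInstance : NormedAddCommGroup (lp (fun _ : G => H) 2))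

attribute [instance] l2Group

/-- the inner product of `ℓ²(G; H)` -/
@[reducible] noncomputable def l2Inner [InnerProductSpace ℂ H] : InnerProductSpace ℂ (L2 G H) :=
  (inferInstance : InnerProductSpace ℂ (lp (fun _ : G => H) 2))

attribute [instance] l2Inner

/-- the value `ξ(g)` of an element `ξ` of `ℓ²(G; H)` -/
def at' (ξ : L2 G H) (g : G) : H := (show lp (fun _ : G => H) 2 from ξ).1 g

variable [InnerProductSpace ℂ H] [Group G]

/-- `P` is the operator `π_α(x)` on `ℓ²(G; H)`: `(P ξ)(g) = α_{g⁻¹}(x) (ξ g)`. (It exists for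
every action `α` on a von Neumann algebra containing `x`, since ⋆-automorphisms are isometric.) -/
def IsPi (α : G → Op H → Op H) (x : Op H) (P : Op (L2 G H)) : Prop :=
  ∀ (ξ : L2 G H) (g : G), at' (ap P ξ) g = ap (α g⁻¹ x) (at' ξ g)

/-- `P` is the translation operator `λ_h` on `ℓ²(G; H)`: `(P ξ)(g) = ξ (h⁻¹ g)`. -/
def IsShift (h : G) (P : Op (L2 G H)) : Prop :=
  ∀ (ξ : L2 G H) (g : G), at' (ap P ξ) g = at' ξ (h⁻¹ * g)

/-- the copy `π_α(M)` of `M` in the crossed product -/
def piSet (M : Set (Op H)) (α : G → Op H → Op H) : Set (Op (L2 G H)) := {P | ∃ x ∈ M, IsPi α x P}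

/-- the translations `λ_h`, `h ∈ G` -/
def shiftSet (G H : Type) [Group G] [NormedAddCommGroup H] [InnerProductSpace ℂ H] :
    Set (Op (L2 G H)) := {P | ∃ h : G, IsShift h P}

/-- The von Neumann crossed product `M ⋊_α G ⊆ B(ℓ²(G; H))`: the double commutant of the copy
`π_α(M)` of `M` together with the translations `λ_h`, `h ∈ G`. -/
def crossed (M : Set (Op H)) (α : G → Op H → Op H) : Set (Op (L2 G H)) :=
  commutant (commutant (piSet M α ∪ shiftSet G H))

/-- `α` is strictly outer: `M' ∩ (M ⋊_α G) = ℂ1`. -/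
def StrictlyOuter (M : Set (Op H)) (α : G → Op H → Op H) : Prop :=
  ∀ T ∈ crossed M α, T ∈ commutant (piSet M α) → IsScalar T

/-- `v` is a 1-cocycle for `α`: unitaries `v_g` of `M` with `v_{gh} = v_g α_g(v_h)`. -/
structure IsCocycle [CompleteSpace H] (M : Set (Op H)) (α : G → Op H → Op H)
    (v : G → Op H) : Prop where
  mem : ∀ g, v g ∈ M
  star_mul : ∀ g, star (v g) * v g = 1
  mul_star : ∀ g, v g * star (v g) = 1
  cocycle : ∀ g h, v (g * h) = v g * α g (v h)

/-- The cocycle perturbation `β = Ad v ∘ α`, `β_g(x) = v_g α_g(x) v_g*`, is ergodic: only the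
scalars are fixed by all `β_g`. -/
def ErgodicPerturbation [CompleteSpace H] (M : Set (Op H)) (α : G → Op H → Op H)
    (v : G → Op H) : Prop :=
  ∀ x ∈ M, (∀ g, v g * α g x * star (v g) = x) → IsScalar x

end

end Pool.Agent.H95R3.NS.Pub
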