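import Pool.Agent.H95R3.NS.Main
import Pool.Agent.H95R3.NS.Pub

/-!
# From the subtype formulation to the formulation by sets of operators
-/

set_option autoImplicit false

namespace Pool.Agent.H95R3.NS.Pub

open scoped ENNReal InnerProductSpace
open Pool.Agent.H95R3.NS (Alg)

section

variable {H : Type} [NormedAddCommGroup H] [InnerProductSpace ℂ H] [CompleteSpace H]

/-- the underlying set -/
def toSet (M : VonNeumannAlgebra H) : Set (Op H) := {x | (show H →L[ℂ] H from x) ∈ M}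

open Classical in
/-- extension by zero of an action -/
noncomputable def ext0 {G : Type} (M : VonNeumannAlgebra H)
    (α : G → (Alg M ≃⋆ₐ[ℂ] Alg M)) (g : G) (x : Op H) : Op H :=
  if h : x ∈ toSet M then (α g ⟨x, h⟩ : Alg M).1 else (0 : Op H)

lemma ext0_pos {G : Type} (M : VonNeumannAlgebra H)
    (α : G → (Alg M ≃⋆ₐ[ℂ] Alg M)) (g : G) (x : Op H) (h : x ∈ toSet M) :
    ext0 M α g x = (α g ⟨x, h⟩ : Alg M).1 := dif_pos h

lemma mem_mul (M : VonNeumannAlgebra H) (x : Op H) (hx : x ∈ toSet M) (y : Op H)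
    (hy : y ∈ toSet M) : x * y ∈ toSet M :=
  M.toStarSubalgebra.mul_mem' hx hy

lemma mem_add (M : VonNeumannAlgebra H) (x : Op H) (hx : x ∈ toSet M) (y : Op H)
    (hy : y ∈ toSet M) : x + y ∈ toSet M :=
  M.toStarSubalgebra.add_mem' hx hy

lemma mem_star (M : VonNeumannAlgebra H) (x : Op H) (hx : x ∈ toSet M) : star x ∈ toSet M :=
  M.toStarSubalgebra.star_mem' hx

lemma mem_smul (M : VonNeumannAlgebra H) (c : ℂ) (x : Op H) (hx : x ∈ toSet M) :
    c • x ∈ toSet M := by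
  have h : (c • (show H →L[ℂ] H from x)) ∈ M.toStarSubalgebra := by
    have h2 := M.toStarSubalgebra.mul_mem' (M.toStarSubalgebra.algebraMap_mem' c) hx
    rw [Algebra.smul_def]
    exact h2
  exact h

lemma II (M : VonNeumannAlgebra H) (hM : NS.IsIIOneFactor M) : IsIIOneFactor (toSet M) := by
  refine ⟨?_, ?_, ?_, ?_, ?_⟩
  · intro x hx
    exact M.toStarSubalgebra.star_mem' hx
  · exact M.centralizer_centralizer'
  · intro x hx hc
    obtain ⟨c, hc⟩ := hM.factor ⟨x, hx⟩ (fun y => Subtype.ext (hc y.1 y.2).symm)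
    exact ⟨c, congrArg Subtype.val hc⟩
  · have hinf : Infinite (Module.Basis.ofVectorSpaceIndex ℂ (Alg M)) := by
      by_contra hfin
      rw [not_infinite_iff_finite] at hfin
      exact hM.infinite (Module.Finite.of_basis (Module.Basis.ofVectorSpace ℂ (Alg M)))
    let e : ℕ ↪ Module.Basis.ofVectorSpaceIndex ℂ (Alg M) := Infinite.natEmbedding _
    have hli := (Module.Basis.ofVectorSpace ℂ (Alg M)).linearIndependent.comp e e.injective
    refine ⟨fun i => (Module.Basis.ofVectorSpace ℂ (Alg M) (e i)).1,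
      fun i => (Module.Basis.ofVectorSpace ℂ (Alg M) (e i)).2, ?_⟩
    intro n c hc i hi
    refine (linearIndependent_iff'.1 hli) (Finset.range n) c ?_ i (Finset.mem_range.2 hi)
    apply Subtype.ext
    have : ∀ s : Finset ℕ, ((∑ i ∈ s, c i • (Module.Basis.ofVectorSpace ℂ (Alg M) ∘ e) i : Alg M) :
        H →L[ℂ] H) = ∑ i ∈ s, c i • ((Module.Basis.ofVectorSpace ℂ (Alg M) (e i) : Alg M) :
        H →L[ℂ] H) := by
      intro s
      induction s using Finset.induction_on with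
      | empty => rfl
      | insert a s ha ih =>
        rw [Finset.sum_insert ha, Finset.sum_insert ha, ← ih]
        rfl
    rw [this]
    exact hc
  · obtain ⟨τ, h1, htr, hpos, hf, ξ, hξ, hs⟩ := hM.trace
    have hn : ∀ (x : Op H) (hx : x ∈ toSet M), nrm ξ x = τ ⟨x, hx⟩ := fun x hx =>
      (hs ⟨x, hx⟩).tsum_eq
    have h1' : (1 : Op H) ∈ toSet M := (1 : Alg M).2
    have hmul := mem_mul M
    refine ⟨ξ, hξ, ?_, ?_, ?_⟩
    · rw [hn 1 h1']
      exact h1
    · intro x hx y hy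
      rw [hn _ (hmul x hx y hy), hn _ (hmul y hy x hx)]
      exact htr ⟨x, hx⟩ ⟨y, hy⟩
    · intro x hx h0
      have hsx : star x ∈ toSet M := M.toStarSubalgebra.star_mem' hx
      rw [hn _ (hmul _ hsx _ hx)] at h0
      exact congrArg Subtype.val (hf ⟨x, hx⟩ h0)

variable {G : Type} [Group G]

set_option maxHeartbeats 1000000 in
lemma action (M : VonNeumannAlgebra H) (α : G → (Alg M ≃⋆ₐ[ℂ] Alg M)) (hα : NS.IsAction α) :
    IsAction (toSet M) (ext0 M α) := by
  have hmul := mem_mul M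
  have hadd := mem_add M
  have hsmul := mem_smul M
  have hstar := mem_star M
  have hmem : ∀ g, ∀ x ∈ toSet M, ext0 M α g x ∈ toSet M := by
    intro g x hx
    rw [ext0_pos M α g x hx]
    exact (α g ⟨x, hx⟩).2
  refine ⟨hmem, ?_, ?_, ?_, ?_, ?_, ?_⟩
  · intro g x hx y hy
    rw [ext0_pos M α g x hx, ext0_pos M α g y hy, ext0_pos M α g _ (hadd x hx y hy)]
    have h := congrArg Subtype.val (map_add (α g) (⟨x, hx⟩ : Alg M) ⟨y, hy⟩)
    exact h
  · intro g x hx y hy
    rw [ext0_pos M α g x hx, ext0_pos M α g y hy, ext0_pos M α g _ (hmul x hx y hy)]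
    have h := congrArg Subtype.val (map_mul (α g) (⟨x, hx⟩ : Alg M) ⟨y, hy⟩)
    exact h
  · intro g c x hx
    rw [ext0_pos M α g x hx, ext0_pos M α g _ (hsmul c x hx)]
    have h : α g (c • (⟨x, hx⟩ : Alg M)) = c • α g ⟨x, hx⟩ := map_smul (α g) c ⟨x, hx⟩
    have h2 : (α g (c • (⟨x, hx⟩ : Alg M)) : Alg M).1 = c • (α g ⟨x, hx⟩ : Alg M).1 := by
      rw [h]; rfl
    exact h2
  · intro g x hx
    rw [ext0_pos M α g x hx, ext0_pos M α g _ (hstar x hx)]
    have h := congrArg Subtype.val (map_star (α g) (⟨x, hx⟩ : Alg M))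
    exact h
  · intro x hx
    rw [ext0_pos M α 1 x hx]
    exact congrArg Subtype.val (hα.one ⟨x, hx⟩)
  · intro g h x hx
    rw [ext0_pos M α (g * h) x hx, ext0_pos M α g _ (hmem h x hx)]
    have h1 : (⟨ext0 M α h x, hmem h x hx⟩ : Alg M) = α h ⟨x, hx⟩ :=
      Subtype.ext (ext0_pos M α h x hx)
    rw [h1]
    exact congrArg Subtype.val (hα.mul g h ⟨x, hx⟩)

lemma isPi_iff (M : VonNeumannAlgebra H) (α : G → (Alg M ≃⋆ₐ[ℂ] Alg M)) (x : Op H)
    (hx : x ∈ toSet M) (P : Op (L2 G H)) :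
    IsPi (ext0 M α) x P ↔
      NS.IsPi α ⟨x, hx⟩ (show NS.L2 G H →L[ℂ] NS.L2 G H from P) := by
  constructor
  · intro h ξ g
    have := h ξ g
    rw [ext0_pos M α g⁻¹ x hx] at this
    exact this
  · intro h ξ g
    rw [ext0_pos M α g⁻¹ x hx]
    exact h ξ g

lemma piSet_eq (M : VonNeumannAlgebra H) (α : G → (Alg M ≃⋆ₐ[ℂ] Alg M)) :
    piSet (toSet M) (ext0 M α) =
      ({P : NS.L2 G H →L[ℂ] NS.L2 G H | ∃ x, NS.IsPi α x P} : Set (Op (L2 G H))) := by
  ext P
  constructor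
  · rintro ⟨x, hx, h⟩
    exact ⟨⟨x, hx⟩, (isPi_iff M α x hx P).1 h⟩
  · rintro ⟨x, h⟩
    exact ⟨x.1, x.2, (isPi_iff M α x.1 x.2 P).2 h⟩

lemma outer (M : VonNeumannAlgebra H) (α : G → (Alg M ≃⋆ₐ[ℂ] Alg M)) (h : NS.StrictlyOuter α) :
    StrictlyOuter (toSet M) (ext0 M α) := by
  intro T hT hc
  have h1 : T ∈ (NS.crossed α : Set (NS.L2 G H →L[ℂ] NS.L2 G H)) := by
    have h2 : crossed (toSet M) (ext0 M α) = commutant (commutant
      (({P : NS.L2 G H →L[ℂ] NS.L2 G H | ∃ x, NS.IsPi α x P} : Set (Op (L2 G H))) ∪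
        shiftSet G H)) := by
      unfold crossed
      rw [piSet_eq]
    rw [h2] at hT
    exact hT
  refine h T h1 ?_
  intro x P hP
  exact (hc P ⟨x.1, x.2, (isPi_iff M α x.1 x.2 P).2 hP⟩).symm

lemma no_ergodic (M : VonNeumannAlgebra H) (α : G → (Alg M ≃⋆ₐ[ℂ] Alg M))
    (h : ∀ v : G → Alg M, NS.IsCocycle α v → ¬ NS.ErgodicPerturbation α v)
    (v : G → Op H) (hv : IsCocycle (toSet M) (ext0 M α) v) :
    ¬ ErgodicPerturbation (toSet M) (ext0 M α) v := by
  intro he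
  refine h (fun g => ⟨v g, hv.mem g⟩) ⟨?_, ?_⟩ ?_
  · intro g
    rw [Unitary.mem_iff]
    exact ⟨Subtype.ext (hv.star_mul g), Subtype.ext (hv.mul_star g)⟩
  · intro g k
    apply Subtype.ext
    have := hv.cocycle g k
    rw [ext0_pos M α g _ (hv.mem k)] at this
    exact this
  · intro x hx
    obtain ⟨c, hc⟩ := he x.1 x.2 (by
      intro g
      rw [ext0_pos M α g _ x.2]
      exact congrArg Subtype.val (hx g))
    exact ⟨c, Subtype.ext hc⟩

end

theorem main (G : Type) [Group G] [Infinite G] :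
    ∃ (H : Type) (_ : NormedAddCommGroup H) (_ : InnerProductSpace ℂ H) (_ : CompleteSpace H)
      (M : Set (Op H)) (α : G → Op H → Op H),
      IsIIOneFactor M ∧ IsAction M α ∧ StrictlyOuter M α ∧
      ∀ v : G → Op H, IsCocycle M α v → ¬ ErgodicPerturbation M α v := by
  obtain ⟨H, i1, i2, i3, M, α, hM, hα, hout, hv⟩ := NS.main G
  exact ⟨H, i1, i2, i3, toSet M, ext0 M α, II M hM, action M α hα, outer M α hout,
    no_ergodic M α hv⟩

end Pool.Agent.H95R3.NS.Pub
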