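import Pool.Agent.H95R3.NS.Op

/-!
# Actions of discrete groups on von Neumann algebras: definitions
-/

set_option autoImplicit false
set_option linter.unusedSectionVars false

namespace Pool.Agent.H95R3.NS

open scoped ENNReal InnerProductSpace

section

variable {H : Type} [NormedAddCommGroup H] [InnerProductSpace ℂ H] [CompleteSpace H]

/-- The von Neumann algebra `M ⊆ B(H)` as a type; it is a ⋆-algebra over `ℂ`. -/
abbrev Alg (M : VonNeumannAlgebra H) : Type := M.toStarSubalgebra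

/-- `M` is a II₁ factor: its centre is `ℂ1`, it is infinite dimensional, and it has a faithful
normal tracial state `τ` (normal: `τ x = ∑ ⟪ξ_i, x ξ_i⟫` for vectors with `∑ ‖ξ_i‖² < ∞`). -/
structure IsIIOneFactor (M : VonNeumannAlgebra H) : Prop where
  factor : ∀ x : Alg M, (∀ y : Alg M, x * y = y * x) → ∃ c : ℂ, x = c • 1
  infinite : ¬ FiniteDimensional ℂ (Alg M)
  trace : ∃ τ : Alg M →ₗ[ℂ] ℂ, τ 1 = 1 ∧ (∀ x y, τ (x * y) = τ (y * x)) ∧
    (∀ x, ∃ r : ℝ, 0 ≤ r ∧ τ (star x * x) = r) ∧ (∀ x, τ (star x * x) = 0 → x = 0) ∧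
    ∃ ξ : ℕ → H, Summable (fun i => ‖ξ i‖ ^ 2) ∧
      ∀ x : Alg M, HasSum (fun i => ⟪ξ i, (x : H →L[ℂ] H) (ξ i)⟫_ℂ) (τ x)

variable {G : Type} [Group G] {M : VonNeumannAlgebra H}

/-- an action of the discrete group `G` on `M` by ⋆-automorphisms -/
structure IsAction (α : G → (Alg M ≃⋆ₐ[ℂ] Alg M)) : Prop where
  one : ∀ x, α 1 x = x
  mul : ∀ g h x, α (g * h) x = α g (α h x)

/-- `P` is the operator `π_α(x)` on `ℓ²(G; H)`: `(P ξ)(g) = α_{g⁻¹}(x) (ξ g)`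
(it exists, see `exists_isPi`, and is unique). -/
def IsPi (α : G → (Alg M ≃⋆ₐ[ℂ] Alg M)) (x : Alg M) (P : L2 G H →L[ℂ] L2 G H) : Prop :=
  ∀ (ξ : L2 G H) (g : G), P ξ g = ((α g⁻¹ x : Alg M) : H →L[ℂ] H) (ξ g)

/-- `P` is the translation operator `λ_h` on `ℓ²(G; H)`: `(P ξ)(g) = ξ (h⁻¹ g)`
(it exists, see `exists_isShift`, and is unique). -/
def IsShift (h : G) (P : L2 G H →L[ℂ] L2 G H) : Prop :=
  ∀ (ξ : L2 G H) (g : G), P ξ g = ξ (h⁻¹ * g)

/-- The von Neumann crossed product `M ⋊_α G ⊆ B(ℓ²(G; H))`: the double commutant of the copy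
`π_α(M)` of `M` together with the translations `λ_h`, `h ∈ G`. -/
def crossed (α : G → (Alg M ≃⋆ₐ[ℂ] Alg M)) : Set (L2 G H →L[ℂ] L2 G H) :=
  Set.centralizer (Set.centralizer ({P | ∃ x, IsPi α x P} ∪ {P | ∃ h : G, IsShift h P}))

/-- `α` is strictly outer: `M' ∩ (M ⋊_α G) = ℂ1`. -/
def StrictlyOuter (α : G → (Alg M ≃⋆ₐ[ℂ] Alg M)) : Prop :=
  ∀ T ∈ crossed α, (∀ x P, IsPi α x P → T * P = P * T) → ∃ c : ℂ, T = c • 1

/-- `v` is a 1-cocycle for `α`: unitaries with `v_{gh} = v_g α_g(v_h)`. -/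
structure IsCocycle (α : G → (Alg M ≃⋆ₐ[ℂ] Alg M)) (v : G → Alg M) : Prop where
  unitary : ∀ g, v g ∈ unitary (Alg M)
  mul : ∀ g h, v (g * h) = v g * α g (v h)

/-- The cocycle perturbation `β = Ad v ∘ α`, `β_g(x) = v_g α_g(x) v_g*`, is ergodic: only the
scalars are fixed by all `β_g`. -/
def ErgodicPerturbation (α : G → (Alg M ≃⋆ₐ[ℂ] Alg M)) (v : G → Alg M) : Prop :=
  ∀ x : Alg M, (∀ g, v g * α g x * star (v g) = x) → ∃ c : ℂ, x = c • 1

/-! ### the operators in the definition of the crossed product exist -/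

lemma vn_closed (M : VonNeumannAlgebra H) : IsClosed (M.toStarSubalgebra : Set (H →L[ℂ] H)) := by
  have h : (M.toStarSubalgebra : Set (H →L[ℂ] H)) =
      Set.centralizer (Set.centralizer (M.toStarSubalgebra : Set (H →L[ℂ] H))) :=
    M.centralizer_centralizer'.symm
  rw [h]
  exact Set.isClosed_centralizer _

/-- ⋆-automorphisms of von Neumann algebras are contractive -/
lemma norm_aut_le (M : VonNeumannAlgebra H) (e : Alg M ≃⋆ₐ[ℂ] Alg M) (x : Alg M) :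
    ‖((e x : Alg M) : H →L[ℂ] H)‖ ≤ ‖(x : H →L[ℂ] H)‖ := by
  have := vn_closed M
  exact NonUnitalStarAlgHom.norm_apply_le e x

/-- the operators `π_α(x)` exist -/
theorem exists_isPi (α : G → (Alg M ≃⋆ₐ[ℂ] Alg M)) (x : Alg M) :
    ∃ P : L2 G H →L[ℂ] L2 G H, IsPi α x P :=
  ⟨opT (fun g => ((α g⁻¹ x : Alg M) : H →L[ℂ] H)) ‖(x : H →L[ℂ] H)‖ (norm_nonneg _)
    (fun _ => norm_aut_le M _ x) 1, fun _ _ => rfl⟩

/-- the translations `λ_h` exist -/
theorem exists_isShift (h : G) : ∃ P : L2 G H →L[ℂ] L2 G H, IsShift h P :=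
  ⟨sh H (Equiv.mulLeft h⁻¹), fun _ _ => rfl⟩

end

end Pool.Agent.H95R3.NS
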