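import Mathlib

set_option autoImplicit false

namespace Pool.Agent.H95R3.NS

/-- finitely supported permutations of `I` -/
def FP (I : Type) : Subgroup (Equiv.Perm I) where
  carrier := {σ | {i | σ i ≠ i}.Finite}
  mul_mem' := by
    intro a b ha hb
    refine (Set.Finite.union (show {i | a i ≠ i}.Finite from ha)
      (show {i | b i ≠ i}.Finite from hb)).subset ?_
    intro i hi
    by_contra hcon
    simp only [Set.mem_union, Set.mem_ofPred_eq, not_or, not_not] at hcon
    apply hi
    rw [Equiv.Perm.mul_apply, hcon.2, hcon.1]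
  one_mem' := by simp
  inv_mem' := by
    intro a ha
    refine (show {i | a i ≠ i}.Finite from ha).subset ?_
    intro i hi hcon
    apply hi
    rw [Equiv.Perm.inv_eq_iff_eq, hcon]

lemma mem_FP {I : Type} (σ : Equiv.Perm I) : σ ∈ FP I ↔ {i | σ i ≠ i}.Finite := Iff.rfl

instance FP_normal (I : Type) : (FP I).Normal where
  conj_mem := by
    intro n hn g
    rw [mem_FP] at hn ⊢
    refine (hn.image g).subset ?_
    intro i hi
    refine ⟨g⁻¹ i, ?_, by simp⟩
    intro h
    apply hi
    rw [Equiv.Perm.mul_apply, Equiv.Perm.mul_apply, h]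
    simp

lemma swap_mem {I : Type} [DecidableEq I] (i j : I) : Equiv.swap i j ∈ FP I := by
  rw [mem_FP]
  refine (Set.toFinite {i, j}).subset ?_
  intro k hk
  by_contra hcon
  simp only [Set.mem_insert_iff, Set.mem_singleton_iff, not_or] at hcon
  exact hk (Equiv.swap_apply_of_ne_of_ne hcon.1 hcon.2)

/-- if a family of finitely supported permutations moves infinitely many points in total then its
range is infinite -/
lemma infinite_of_moved {I : Type} (S : Set (FP I))
    (h : {i | ∃ σ ∈ S, (σ : Equiv.Perm I) i ≠ i}.Infinite) : S.Infinite := by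
  intro hS
  apply h
  have : {i | ∃ σ ∈ S, (σ : Equiv.Perm I) i ≠ i} = ⋃ σ ∈ S, {i | (σ : Equiv.Perm I) i ≠ i} := by
    ext i; simp
  rw [this]
  exact hS.biUnion (fun σ _ => σ.2)

/-- conjugacy classes of nontrivial elements are infinite -/
lemma conj_infinite {I : Type} [Infinite I] (h : FP I) (hh : h ≠ 1) :
    {x : FP I | ∃ g : FP I, x = g * h * g⁻¹}.Infinite := by
  classical
  apply infinite_of_moved
  have hex : ∃ i, (h : Equiv.Perm I) i ≠ i := by
    by_contra hcon
    push Not at hcon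
    apply hh
    ext i
    simpa using hcon i
  obtain ⟨i, hi⟩ := hex
  have hfin : {j | (h : Equiv.Perm I) j ≠ j}.Finite := h.2
  refine (hfin.infinite_compl).mono ?_
  intro j hj
  have hj' : (h : Equiv.Perm I) j = j := by simpa using hj
  refine ⟨⟨Equiv.swap i j, swap_mem i j⟩ * h * ⟨Equiv.swap i j, swap_mem i j⟩⁻¹, ⟨_, rfl⟩, ?_⟩
  simp only [Subgroup.coe_mul, Subgroup.coe_inv, Equiv.Perm.mul_apply, Equiv.swap_inv,
    Equiv.swap_apply_right]
  intro hcon
  have h2 := congrArg (Equiv.swap i j) hcon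
  rw [Equiv.swap_apply_self, Equiv.swap_apply_right] at h2
  exact hi h2

/-- the action of `G` on `G ⊕ Set G` (left translation on the first summand) -/
def act (G : Type) [Group G] : G →* Equiv.Perm (G ⊕ Set G) where
  toFun h := Equiv.sumCongr (Equiv.mulLeft h) (Equiv.refl (Set G))
  map_one' := by
    ext x
    rcases x with x | x <;> simp
  map_mul' := by
    intro a b
    ext x
    rcases x with x | x <;> simp [mul_assoc]

/-- the induced action on the finitary permutation group -/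
def th (G : Type) [Group G] : G →* MulAut (FP (G ⊕ Set G)) := MulAut.conjNormal.comp (act G)

lemma th_val {G : Type} [Group G] (h : G) (x : FP (G ⊕ Set G)) :
    ((th G h x : FP (G ⊕ Set G)) : Equiv.Perm (G ⊕ Set G)) = act G h * x * (act G h)⁻¹ := by
  simp [th]

/-- twisted conjugacy classes are infinite -/
lemma twisted_infinite {G : Type} [Group G] [Infinite G] (m n : G) (hmn : m ≠ n)
    (h : FP (G ⊕ Set G)) : {x : FP (G ⊕ Set G) | ∃ g, x = th G m g * h * (th G n g)⁻¹}.Infinite := by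
  classical
  apply infinite_of_moved
  have hfin : {j | (h : Equiv.Perm (G ⊕ Set G)) j ≠ j}.Finite := h.2
  obtain ⟨r, hr⟩ : ∃ r : Set G, (h : Equiv.Perm (G ⊕ Set G)) (Sum.inr r) = Sum.inr r := by
    by_contra hcon
    push Not at hcon
    have hsub : Set.range (Sum.inr : Set G → G ⊕ Set G) ⊆ {j | (h : Equiv.Perm (G ⊕ Set G)) j ≠ j} := by
      rintro _ ⟨r, rfl⟩
      exact hcon r
    exact (Set.infinite_range_of_injective Sum.inr_injective) (hfin.subset hsub)
  refine (Set.infinite_range_of_injective (f := fun k : G => (Sum.inl (n * k) : G ⊕ Set G)) ?_).mono ?_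
  · intro a b hab
    simpa using hab
  · rintro _ ⟨k, rfl⟩
    refine ⟨th G m ⟨Equiv.swap (Sum.inl k) (Sum.inr r), swap_mem _ _⟩ * h *
      (th G n ⟨Equiv.swap (Sum.inl k) (Sum.inr r), swap_mem _ _⟩)⁻¹, ⟨_, rfl⟩, ?_⟩
    simp only [Subgroup.coe_mul, Subgroup.coe_inv, th_val, mul_inv_rev, inv_inv,
      Equiv.Perm.mul_apply, Equiv.swap_inv]
    have e1 : ∀ a : G, (act G a)⁻¹ (Sum.inl (a * k)) = Sum.inl k := by
      intro a
      rw [Equiv.Perm.inv_eq_iff_eq]
      simp [act]
    have e2 : ∀ a : G, act G a (Sum.inr r) = Sum.inr r := by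
      intro a; simp [act]
    have e3 : ∀ a : G, (act G a)⁻¹ (Sum.inr r) = Sum.inr r := by
      intro a
      rw [Equiv.Perm.inv_eq_iff_eq, e2]
    rw [e1, Equiv.swap_apply_left, e2, hr, e3, Equiv.swap_apply_right]
    simp only [act, MonoidHom.coe_mk, OneHom.coe_mk, Equiv.sumCongr_apply, Sum.map_inl,
      Equiv.coe_mulLeft]
    intro hcon
    have := Sum.inl_injective hcon
    exact hmn (mul_right_cancel this)

/-- two transposed points outside the supports of a small set of permutations -/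
lemma exists_fixed {G : Type} [Group G] [Infinite G] (C : Set (FP (G ⊕ Set G)))
    (hC : Cardinal.mk C ≤ Cardinal.mk G) :
    ∃ w : FP (G ⊕ Set G), w ≠ 1 ∧ (∀ g, th G g w = w) ∧ ∀ x ∈ C, x * w = w * x := by
  classical
  have hG : Cardinal.aleph0 ≤ Cardinal.mk G := Cardinal.aleph0_le_mk G
  have hle : Cardinal.mk (⋃ x ∈ C, {r : Set G |
      (x : Equiv.Perm (G ⊕ Set G)) (Sum.inr r) ≠ Sum.inr r} : Set (Set G)) ≤ Cardinal.mk G := by
    refine (Cardinal.mk_biUnion_le _ _).trans ?_
    refine (mul_le_mul' hC (ciSup_le' (fun x => ?_))).trans (Cardinal.mul_aleph0_eq hG).le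
    have hx : {j | ((x : FP (G ⊕ Set G)) : Equiv.Perm (G ⊕ Set G)) j ≠ j}.Finite := x.1.2
    have hfin := hx.preimage (f := (Sum.inr : Set G → G ⊕ Set G)) Sum.inr_injective.injOn
    exact (Cardinal.le_aleph0_iff_set_countable.2 hfin.countable)
  have hnt : ((⋃ x ∈ C, {r : Set G |
      (x : Equiv.Perm (G ⊕ Set G)) (Sum.inr r) ≠ Sum.inr r})ᶜ).Nontrivial := by
    by_contra hcon
    rw [Set.not_nontrivial_iff] at hcon
    have h1 := Cardinal.mk_sum_compl (⋃ x ∈ C, {r : Set G |
      (x : Equiv.Perm (G ⊕ Set G)) (Sum.inr r) ≠ Sum.inr r})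
    have h2 : Cardinal.mk ((⋃ x ∈ C, {r : Set G |
      (x : Equiv.Perm (G ⊕ Set G)) (Sum.inr r) ≠ Sum.inr r})ᶜ : Set (Set G)) ≤ Cardinal.mk G :=
      (Cardinal.mk_le_one_iff_set_subsingleton.2 hcon).trans
        (Cardinal.one_le_aleph0.trans hG)
    have h3 : Cardinal.mk (Set G) ≤ Cardinal.mk G := by
      rw [← h1]
      exact (add_le_add hle h2).trans (Cardinal.add_eq_self hG).le
    rw [Cardinal.mk_set] at h3
    exact absurd h3 (not_le.2 (Cardinal.cantor _))
  obtain ⟨r, hr, s, hs, hrs⟩ := hnt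
  have hfix : ∀ t : Set G, t ∈ ((⋃ x ∈ C, {r : Set G |
      (x : Equiv.Perm (G ⊕ Set G)) (Sum.inr r) ≠ Sum.inr r})ᶜ) →
      ∀ x ∈ C, (x : Equiv.Perm (G ⊕ Set G)) (Sum.inr t) = Sum.inr t := by
    intro t ht x hx
    by_contra hcon
    exact ht (Set.mem_biUnion hx hcon)
  have hne : (Sum.inr r : G ⊕ Set G) ≠ Sum.inr s := fun h => hrs (Sum.inr_injective h)
  refine ⟨⟨Equiv.swap (Sum.inr r) (Sum.inr s), swap_mem _ _⟩, ?_, ?_, ?_⟩
  · intro h
    have h1 := congrArg (fun z : FP (G ⊕ Set G) => (z : Equiv.Perm (G ⊕ Set G)) (Sum.inr r)) h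
    simp only [Equiv.swap_apply_left, Subgroup.coe_one, Equiv.Perm.one_apply] at h1
    exact hne h1.symm
  · intro g
    apply Subtype.ext
    rw [th_val]
    rw [Equiv.mul_swap_eq_swap_mul, mul_assoc, mul_inv_cancel, mul_one]
    simp [act]
  · intro x hx
    apply Subtype.ext
    rw [Subgroup.coe_mul, Subgroup.coe_mul]
    rw [Equiv.mul_swap_eq_swap_mul, hfix r hr x hx, hfix s hs x hx]

end Pool.Agent.H95R3.NS
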