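import Pool.Agent.H95R3.NS.Op

set_option autoImplicit false
set_option linter.unusedSectionVars false
set_option linter.deprecated false

namespace Pool.Agent.H95R3.NS

open scoped ENNReal InnerProductSpace

section

variable (Γ : Type) [Group Γ]

/-- `ℓ²(Γ)` -/
abbrev HG : Type := L2 Γ ℂ

/-- right translation `(ρ_g ξ)(k) = ξ (k g)` -/
noncomputable def rho (g : Γ) : HG Γ →L[ℂ] HG Γ := sh ℂ (Equiv.mulRight g)

/-- left translation `(λ_g ξ)(k) = ξ (g⁻¹ k)` -/
noncomputable def lam (g : Γ) : HG Γ →L[ℂ] HG Γ := sh ℂ (Equiv.mulLeft g⁻¹)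

/-- the group von Neumann algebra, as the commutant of the right translations -/
noncomputable def GV : VonNeumannAlgebra (HG Γ) where
  toStarSubalgebra := StarSubalgebra.centralizer ℂ (Set.range (rho Γ))
  centralizer_centralizer' := by
    change Set.centralizer (Set.centralizer (Set.centralizer _)) = Set.centralizer _
    exact Set.centralizer_centralizer_centralizer _

end

section

variable {Γ : Type} [Group Γ]

@[simp] lemma rho_apply (g : Γ) (ξ : HG Γ) (k : Γ) : rho Γ g ξ k = ξ (k * g) := rfl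

@[simp] lemma lam_apply (g : Γ) (ξ : HG Γ) (k : Γ) : lam Γ g ξ k = ξ (g⁻¹ * k) := rfl

lemma star_rho (g : Γ) : star (rho Γ g) = rho Γ g⁻¹ := by
  rw [rho, star_sh]
  congr 1
  ext k
  rfl

lemma star_lam (g : Γ) : star (lam Γ g) = lam Γ g⁻¹ := by
  rw [lam, star_sh, lam]
  congr 1
  ext k
  simp [Equiv.Perm.inv_def]

lemma mem_GV (x : HG Γ →L[ℂ] HG Γ) : x ∈ GV Γ ↔ ∀ g, rho Γ g * x = x * rho Γ g := by
  change x ∈ StarSubalgebra.centralizer ℂ (Set.range (rho Γ)) ↔ _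
  rw [StarSubalgebra.mem_centralizer_iff]
  constructor
  · intro h g
    exact (h _ ⟨g, rfl⟩).1
  · rintro h _ ⟨g, rfl⟩
    refine ⟨h g, ?_⟩
    rw [star_rho]
    exact h _

lemma lam_mem (g : Γ) : lam Γ g ∈ GV Γ := by
  rw [mem_GV]
  intro h
  ext ξ k
  change ξ (g⁻¹ * (k * h)) = ξ (g⁻¹ * k * h)
  rw [mul_assoc]

open Classical in
/-- the basis vector `δ_a` -/
noncomputable def de (a : Γ) : HG Γ := lp.single 2 a (1 : ℂ)

lemma de_self (a : Γ) : (de a : HG Γ) a = 1 := by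
  classical
  simp [de]

lemma de_ne (a b : Γ) (h : b ≠ a) : (de a : HG Γ) b = 0 := by
  classical
  rw [de, lp.single_apply, Pi.single_eq_of_ne h]

lemma rho_de (g a : Γ) : rho Γ g (de a) = de (a * g⁻¹) := by
  classical
  rw [rho, de, sh_single]
  rfl

lemma lam_de (g a : Γ) : lam Γ g (de a) = de (g * a) := by
  classical
  rw [lam, de, sh_single]
  simp [de, Equiv.mulLeft_symm]

lemma de_eq_rho (a : Γ) : (de a : HG Γ) = rho Γ a⁻¹ (de 1) := by
  rw [rho_de]; simp

/-- elements of `L(Γ)` are right convolution operators -/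
lemma GV_de {x : HG Γ →L[ℂ] HG Γ} (hx : x ∈ GV Γ) (a k : Γ) :
    x (de a) k = x (de 1) (k * a⁻¹) := by
  have h := (mem_GV x).1 hx a⁻¹
  have h2 := congrArg (fun T : HG Γ →L[ℂ] HG Γ => T (de 1) k) h
  simp only [ContinuousLinearMap.mul_apply] at h2
  rw [de_eq_rho a, ← h2]
  rfl

lemma ext_de {F : Type} [NormedAddCommGroup F] [InnerProductSpace ℂ F]
    {S T : HG Γ →L[ℂ] F} (h : ∀ a, S (de a) = T (de a)) : S = T := by
  classical
  refine ext_single (fun g z => ?_)
  have e : (lp.single 2 g z : HG Γ) = z • de g := by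
    rw [de, ← lp.single_smul]
    simp
  rw [e, map_smul, map_smul, h]

lemma GV_ext {x y : HG Γ →L[ℂ] HG Γ} (hx : x ∈ GV Γ) (hy : y ∈ GV Γ)
    (h : x (de 1) = y (de 1)) : x = y := by
  refine ext_de (fun a => ?_)
  ext k
  rw [GV_de hx, GV_de hy, h]

lemma summable_sq (t : HG Γ) : Summable (fun k => ‖t k‖ ^ 2) := by
  have h2 : (0 : ℝ) < (2 : ℝ≥0∞).toReal := by norm_num
  have := (memℓp_gen_iff h2).1 (lp.memℓp t)
  simpa using this

/-- a value taken infinitely often by an `ℓ²` function is zero -/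
lemma eq_zero_of_infinite (t : HG Γ) (z : ℂ) (h : {k | t k = z}.Infinite) : z = 0 := by
  by_contra hz
  apply h
  have ht := (summable_sq t).tendsto_cofinite_zero
  have hpos : (0 : ℝ) < ‖z‖ ^ 2 := by positivity
  have hev := ht.eventually (gt_mem_nhds hpos)
  rw [Filter.eventually_cofinite] at hev
  refine hev.subset ?_
  intro k hk
  have : t k = z := hk
  simp [this]

lemma countable_supp (t : HG Γ) : {k | t k ≠ 0}.Countable := by
  have ht := (summable_sq t).countable_support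
  refine ht.mono ?_
  intro k hk
  simpa [Function.mem_support] using hk

/-- `t` is constant along infinite orbits, so it vanishes there -/
lemma factor_lemma (t : HG Γ) (O : Set Γ) (hO : O.Infinite) (h : Γ) (ht : ∀ k ∈ O, t k = t h) :
    t h = 0 :=
  eq_zero_of_infinite t (t h) (hO.mono (fun k hk => ht k hk))

/-- infinite conjugacy classes: `L(Γ)` is a factor -/
lemma GV_factor (hicc : ∀ h : Γ, h ≠ 1 → {x | ∃ g : Γ, x = g * h * g⁻¹}.Infinite)
    {x : HG Γ →L[ℂ] HG Γ} (hx : x ∈ GV Γ) (hc : ∀ y ∈ GV Γ, x * y = y * x) :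
    ∃ c : ℂ, x = c • (1 : HG Γ →L[ℂ] HG Γ) := by
  refine ⟨x (de 1) 1, ?_⟩
  have h1 : (1 : HG Γ →L[ℂ] HG Γ) ∈ GV Γ := by
    rw [mem_GV]; intro g; simp
  have h1' : (x (de 1) 1) • (1 : HG Γ →L[ℂ] HG Γ) ∈ GV Γ := by
    rw [mem_GV]
    intro g
    rw [mul_smul_comm, smul_mul_assoc, mul_one, one_mul]
  refine GV_ext hx h1' ?_
  ext k
  by_cases hk : k = 1
  · subst hk
    change _ = (x (de 1) 1) * (de 1 : HG Γ) 1
    rw [de_self, mul_one]
  · change _ = (x (de 1) 1) * (de 1 : HG Γ) k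
    rw [de_ne 1 k hk, mul_zero]
    refine factor_lemma _ _ (hicc k hk) k ?_
    rintro _ ⟨g, rfl⟩
    have h2 := congrArg (fun T : HG Γ →L[ℂ] HG Γ => T (de 1) (g * k)) (hc _ (lam_mem g))
    simp only [ContinuousLinearMap.mul_apply] at h2
    rw [lam_de, mul_one, GV_de hx, lam_apply, inv_mul_cancel_left] at h2
    exact h2

lemma inner_de_left (k : Γ) (f : HG Γ) : ⟪(de k : HG Γ), f⟫_ℂ = f k := by
  classical
  rw [de, lp.inner_single_left]
  simp

lemma inner_de_right (k : Γ) (f : HG Γ) : ⟪f, (de k : HG Γ)⟫_ℂ = (starRingEnd ℂ) (f k) := by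
  rw [← inner_conj_symm, inner_de_left]

/-- the canonical trace -/
lemma tr_mul {x y : HG Γ →L[ℂ] HG Γ} (hx : x ∈ GV Γ) :
    (x * y) (de 1) 1 = ∑' k, x (de 1) k⁻¹ * y (de 1) k := by
  have e1 : (x * y) (de 1) 1 = ⟪(de 1 : HG Γ), (x * y) (de 1)⟫_ℂ := by
    rw [inner_de_left]
  rw [e1, ContinuousLinearMap.mul_apply, ← ContinuousLinearMap.adjoint_inner_left,
    lp.inner_eq_tsum]
  refine tsum_congr (fun k => ?_)
  have e2 : (ContinuousLinearMap.adjoint x (de 1) : HG Γ) k =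
      ⟪(de k : HG Γ), ContinuousLinearMap.adjoint x (de 1)⟫_ℂ := by
    rw [inner_de_left]
  rw [e2, ContinuousLinearMap.adjoint_inner_right]
  have e3 : ⟪x (de k), (de 1 : HG Γ)⟫_ℂ = (starRingEnd ℂ) (x (de k) 1) := by
    rw [inner_de_right]
  rw [e3, GV_de hx k 1, one_mul]
  simp [mul_comm]

lemma tr_comm {x y : HG Γ →L[ℂ] HG Γ} (hx : x ∈ GV Γ) (hy : y ∈ GV Γ) :
    (x * y) (de 1) 1 = (y * x) (de 1) 1 := by
  rw [tr_mul hx, tr_mul hy, ← Equiv.tsum_eq (Equiv.inv Γ)]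
  refine tsum_congr (fun k => ?_)
  simp [mul_comm]

lemma tr_star (x : HG Γ →L[ℂ] HG Γ) : (star x * x) (de 1) 1 = ((‖x (de 1)‖ ^ 2 : ℝ) : ℂ) := by
  have e1 : (star x * x) (de 1) 1 = ⟪(de 1 : HG Γ), (star x * x) (de 1)⟫_ℂ := by
    rw [inner_de_left]
  rw [e1, ContinuousLinearMap.mul_apply, ContinuousLinearMap.star_eq_adjoint,
    ContinuousLinearMap.adjoint_inner_right, inner_self_eq_norm_sq_to_K]
  simp

lemma de_linInd : LinearIndependent ℂ (fun g : Γ => (de g : HG Γ)) := by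
  classical
  rw [linearIndependent_iff']
  intro s c hs g hg
  have h := congrArg (fun t : HG Γ => t g) hs
  simp only [lp.coeFn_sum, Finset.sum_apply, lp.coeFn_smul, Pi.smul_apply, smul_eq_mul,
    lp.coeFn_zero, Pi.zero_apply] at h
  rw [Finset.sum_eq_single g] at h
  · rwa [de_self, mul_one] at h
  · intro b _ hb
    rw [de_ne b g (Ne.symm hb), mul_zero]
  · intro h'
    exact absurd hg h'

/-- a group element commuting with the support commutes with the operator -/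
lemma comm_lam {v : HG Γ →L[ℂ] HG Γ} (hv : v ∈ GV Γ) (w : Γ)
    (h : ∀ k, v (de 1) k ≠ 0 → k * w = w * k) : v * lam Γ w = lam Γ w * v := by
  have hm : ∀ a b : HG Γ →L[ℂ] HG Γ, a ∈ GV Γ → b ∈ GV Γ → a * b ∈ GV Γ :=
    fun a b ha hb => mul_mem ha hb
  refine GV_ext (hm _ _ hv (lam_mem w)) (hm _ _ (lam_mem w) hv) ?_
  ext k
  rw [ContinuousLinearMap.mul_apply, ContinuousLinearMap.mul_apply, lam_de, mul_one, GV_de hv,
    lam_apply]
  by_cases h1 : v (de 1) (k * w⁻¹) = 0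
  · by_cases h2 : v (de 1) (w⁻¹ * k) = 0
    · rw [h1, h2]
    · have := h _ h2
      have e : k * w⁻¹ = w⁻¹ * k := by
        have h3 : w⁻¹ * k * w = k := by rw [this]; group
        calc k * w⁻¹ = (w⁻¹ * k * w) * w⁻¹ := by rw [h3]
          _ = w⁻¹ * k := by group
      rw [e]
  · have := h _ h1
    have e : w⁻¹ * k = k * w⁻¹ := by
      have h3 : w * (k * w⁻¹) = k := by rw [← this]; group
      calc w⁻¹ * k = w⁻¹ * (w * (k * w⁻¹)) := by rw [h3]
        _ = k * w⁻¹ := by group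
    rw [e]

end

end Pool.Agent.H95R3.NS
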