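import Pool.Agent.H95R3.NS.GV
import Pool.Agent.H95R3.NS.Fin
import Pool.Agent.H95R3.NS.Defs

set_option autoImplicit false
set_option linter.unusedSectionVars false
set_option linter.deprecated false

namespace Pool.Agent.H95R3.NS

open scoped ENNReal InnerProductSpace

section

variable {Γ : Type} [Group Γ]

/-- the unitary `(U_φ ξ)(k) = ξ (φ⁻¹ k)` -/
noncomputable def uu (φ : MulAut Γ) : HG Γ →L[ℂ] HG Γ := sh ℂ (φ⁻¹ : MulAut Γ).toEquiv

@[simp] lemma uu_apply (φ : MulAut Γ) (ξ : HG Γ) (k : Γ) : uu φ ξ k = ξ (φ⁻¹ k) := rfl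

lemma uu_mul (φ ψ : MulAut Γ) : uu φ * uu ψ = uu (φ * ψ) := by
  ext ξ k
  change ξ (ψ⁻¹ (φ⁻¹ k)) = ξ ((φ * ψ)⁻¹ k)
  rw [mul_inv_rev]
  rfl

lemma uu_one : uu (1 : MulAut Γ) = 1 := by
  ext ξ k
  change ξ ((1 : MulAut Γ)⁻¹ k) = ξ k
  rw [inv_one]
  rfl

lemma star_uu (φ : MulAut Γ) : star (uu φ) = uu φ⁻¹ := by
  rw [uu, star_sh, uu]
  congr 1

lemma uu_rho (φ : MulAut Γ) (g : Γ) : uu φ * rho Γ g = rho Γ (φ g) * uu φ := by
  ext ξ k
  change ξ (φ⁻¹ k * g) = ξ (φ⁻¹ (k * φ g))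
  rw [map_mul, MulAut.inv_apply_self]

lemma uu_conj_mem (φ : MulAut Γ) {x : HG Γ →L[ℂ] HG Γ} (hx : x ∈ GV Γ) :
    uu φ * x * uu φ⁻¹ ∈ GV Γ := by
  rw [mem_GV] at hx ⊢
  intro g
  have h1 : rho Γ g * uu φ = uu φ * rho Γ (φ⁻¹ g) := by
    rw [uu_rho, MulAut.apply_inv_self]
  have h2 : uu φ⁻¹ * rho Γ g = rho Γ (φ⁻¹ g) * uu φ⁻¹ := uu_rho φ⁻¹ g
  calc rho Γ g * (uu φ * x * uu φ⁻¹) = (rho Γ g * uu φ) * x * uu φ⁻¹ := by noncomm_ring
    _ = uu φ * (rho Γ (φ⁻¹ g) * x) * uu φ⁻¹ := by rw [h1]; noncomm_ring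
    _ = uu φ * x * (rho Γ (φ⁻¹ g) * uu φ⁻¹) := by rw [hx]; noncomm_ring
    _ = uu φ * x * uu φ⁻¹ * rho Γ g := by rw [← h2]; noncomm_ring

lemma uu_cancel (φ : MulAut Γ) (x : HG Γ →L[ℂ] HG Γ) :
    uu φ⁻¹ * (uu φ * x * uu φ⁻¹) * uu φ = x := by
  have h1 : uu φ⁻¹ * uu φ = 1 := by rw [uu_mul, inv_mul_cancel, uu_one]
  calc uu φ⁻¹ * (uu φ * x * uu φ⁻¹) * uu φ = (uu φ⁻¹ * uu φ) * x * (uu φ⁻¹ * uu φ) := by
        noncomm_ring
    _ = x := by rw [h1, one_mul, mul_one]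

/-- the automorphism `x ↦ U_φ x U_φ*` of `L(Γ)` -/
noncomputable def adE (φ : MulAut Γ) : Alg (GV Γ) ≃⋆ₐ[ℂ] Alg (GV Γ) where
  toFun x := ⟨uu φ * x * uu φ⁻¹, uu_conj_mem φ x.2⟩
  invFun x := ⟨uu φ⁻¹ * x * uu (φ⁻¹)⁻¹, uu_conj_mem φ⁻¹ x.2⟩
  left_inv x := by
    apply Subtype.ext
    change uu φ⁻¹ * (uu φ * x * uu φ⁻¹) * uu (φ⁻¹)⁻¹ = x
    rw [inv_inv]
    exact uu_cancel φ x
  right_inv x := by
    apply Subtype.ext
    change uu φ * (uu φ⁻¹ * x * uu (φ⁻¹)⁻¹) * uu φ⁻¹ = x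
    have := uu_cancel φ⁻¹ (x : HG Γ →L[ℂ] HG Γ)
    rw [inv_inv] at this ⊢
    exact this
  map_mul' x y := by
    apply Subtype.ext
    change uu φ * ((x : HG Γ →L[ℂ] HG Γ) * y) * uu φ⁻¹ =
      (uu φ * x * uu φ⁻¹) * (uu φ * y * uu φ⁻¹)
    have h1 : uu φ⁻¹ * uu φ = 1 := by rw [uu_mul, inv_mul_cancel, uu_one]
    calc uu φ * ((x : HG Γ →L[ℂ] HG Γ) * y) * uu φ⁻¹
        = uu φ * x * 1 * y * uu φ⁻¹ := by noncomm_ring
      _ = uu φ * x * (uu φ⁻¹ * uu φ) * y * uu φ⁻¹ := by rw [h1]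
      _ = (uu φ * x * uu φ⁻¹) * (uu φ * y * uu φ⁻¹) := by noncomm_ring
  map_add' x y := by
    apply Subtype.ext
    change uu φ * ((x : HG Γ →L[ℂ] HG Γ) + y) * uu φ⁻¹ =
      (uu φ * x * uu φ⁻¹) + (uu φ * y * uu φ⁻¹)
    noncomm_ring
  map_star' x := by
    apply Subtype.ext
    change uu φ * star (x : HG Γ →L[ℂ] HG Γ) * uu φ⁻¹ = star (uu φ * x * uu φ⁻¹)
    rw [star_mul, star_mul, star_uu, star_uu, inv_inv, mul_assoc]
  map_smul' c x := by
    apply Subtype.ext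
    change uu φ * (c • (x : HG Γ →L[ℂ] HG Γ)) * uu φ⁻¹ = c • (uu φ * x * uu φ⁻¹)
    rw [mul_smul_comm, smul_mul_assoc]

lemma adE_val (φ : MulAut Γ) (x : Alg (GV Γ)) :
    ((adE φ x : Alg (GV Γ)) : HG Γ →L[ℂ] HG Γ) = uu φ * x * uu φ⁻¹ := rfl

lemma uu_lam (φ : MulAut Γ) (g : Γ) : uu φ * lam Γ g * uu φ⁻¹ = lam Γ (φ g) := by
  ext ξ k
  change ξ ((φ⁻¹)⁻¹ (g⁻¹ * φ⁻¹ k)) = ξ ((φ g)⁻¹ * k)
  rw [inv_inv, map_mul, map_inv, MulAut.apply_inv_self]

/-- the group element `g` as an element of `L(Γ)` -/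
noncomputable def la (g : Γ) : Alg (GV Γ) := ⟨lam Γ g, lam_mem g⟩

lemma la_val (g : Γ) : ((la g : Alg (GV Γ)) : HG Γ →L[ℂ] HG Γ) = lam Γ g := rfl

lemma adE_la (φ : MulAut Γ) (g : Γ) : adE φ (la g) = la (φ g) := by
  apply Subtype.ext
  rw [adE_val, la_val, uu_lam, la_val]

lemma norm_sh_le {G H : Type} [NormedAddCommGroup H] [InnerProductSpace ℂ H]
    (π : Equiv.Perm G) : ‖sh H π‖ ≤ 1 :=
  ContinuousLinearMap.opNorm_le_bound _ zero_le_one (fun ξ =>
    lp.norm_le_of_tsum_le (by norm_num) (by positivity)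
      (opT_bd (fun _ => ContinuousLinearMap.id ℂ H) 1 zero_le_one
        (fun _ => ContinuousLinearMap.norm_id_le) π ξ).2)

/-- `L(Γ)` is a II₁ factor when `Γ` is an infinite group with infinite conjugacy classes -/
theorem GV_II [Infinite Γ]
    (hicc : ∀ h : Γ, h ≠ 1 → {x | ∃ g : Γ, x = g * h * g⁻¹}.Infinite) :
    IsIIOneFactor (GV Γ) where
  factor := by
    intro x hx
    obtain ⟨c, hc⟩ := GV_factor hicc (x := (x : HG Γ →L[ℂ] HG Γ)) x.2
      (fun y hy => congrArg Subtype.val (hx ⟨y, hy⟩))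
    exact ⟨c, Subtype.ext hc⟩
  infinite := by
    intro hfin
    let Φ : Alg (GV Γ) →ₗ[ℂ] HG Γ :=
      { toFun := fun x => (x : HG Γ →L[ℂ] HG Γ) (de 1)
        map_add' := fun x y => rfl
        map_smul' := fun c x => rfl }
    have h1 : LinearIndependent ℂ (fun g : Γ => (la g : Alg (GV Γ))) := by
      apply LinearIndependent.of_comp Φ
      have : (Φ ∘ fun g : Γ => (la g : Alg (GV Γ))) = fun g => de g := by
        funext g
        change lam Γ g (de 1) = de g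
        rw [lam_de, mul_one]
      rw [this]
      exact de_linInd
    exact (not_finite_iff_infinite.2 ‹Infinite Γ›) h1.finite
  trace := by
    refine ⟨{ toFun := fun x => (x : HG Γ →L[ℂ] HG Γ) (de 1) 1
              map_add' := fun x y => rfl
              map_smul' := fun c x => rfl }, ?_, ?_, ?_, ?_, ?_⟩
    · change (de 1 : HG Γ) 1 = 1
      exact de_self 1
    · intro x y
      exact tr_comm x.2 y.2
    · intro x
      exact ⟨‖(x : HG Γ →L[ℂ] HG Γ) (de 1)‖ ^ 2, by positivity, tr_star _⟩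
    · intro x hx
      have h1 : (star (x : HG Γ →L[ℂ] HG Γ) * x) (de 1) 1 = 0 := hx
      rw [tr_star] at h1
      have h2 : (x : HG Γ →L[ℂ] HG Γ) (de 1) = 0 := by
        have : ‖(x : HG Γ →L[ℂ] HG Γ) (de 1)‖ ^ 2 = 0 := Complex.ofReal_eq_zero.1 h1
        simpa using this
      apply Subtype.ext
      refine GV_ext x.2 (zero_mem _) ?_
      rw [h2]
      rfl
    · refine ⟨fun i => if i = 0 then de 1 else 0, ?_, ?_⟩
      · refine summable_of_ne_finset_zero (s := {0}) ?_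
        intro b hb
        simp only [Finset.mem_singleton] at hb
        simp [hb]
      · intro x
        have := hasSum_ite_eq (0 : ℕ) ((x : HG Γ →L[ℂ] HG Γ) (de 1) 1)
        refine this.congr_fun ?_
        intro i
        by_cases hi : i = 0
        · simp [hi, inner_de_left]
        · simp [hi]

end

section

variable {Γ G : Type} [Group Γ] [Group G] (θ : G →* MulAut Γ)

/-- the action of `G` on `L(Γ)` induced by `θ` -/
noncomputable def al (g : G) : Alg (GV Γ) ≃⋆ₐ[ℂ] Alg (GV Γ) := adE (θ g)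

lemma al_action : IsAction (al θ) where
  one := by
    intro x
    apply Subtype.ext
    change uu (θ 1) * x * uu (θ 1)⁻¹ = x
    rw [map_one, inv_one, uu_one, one_mul, mul_one]
  mul := by
    intro g h x
    apply Subtype.ext
    change uu (θ (g * h)) * x * uu (θ (g * h))⁻¹ =
      uu (θ g) * (uu (θ h) * x * uu (θ h)⁻¹) * uu (θ g)⁻¹
    rw [map_mul, mul_inv_rev, ← uu_mul, ← uu_mul]
    noncomm_ring

/-- strict outerness from infinite (twisted) conjugacy classes -/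
theorem al_outer
    (hicc : ∀ h : Γ, h ≠ 1 → {x | ∃ g : Γ, x = g * h * g⁻¹}.Infinite)
    (htw : ∀ m n : G, m ≠ n → ∀ h : Γ, {x | ∃ g : Γ, x = θ m g * h * (θ n g)⁻¹}.Infinite) :
    StrictlyOuter (al θ) := by
  classical
  intro T hT hTM
  -- the operators in the commutant
  have hY : ∀ a : Γ, T * opT (fun _ : G => rho Γ a) 1 zero_le_one (fun _ => norm_sh_le _) 1 =
      opT (fun _ : G => rho Γ a) 1 zero_le_one (fun _ => norm_sh_le _) 1 * T := by
    intro a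
    refine (Set.mem_centralizer_iff.1 hT _ ?_).symm
    rw [Set.mem_centralizer_iff]
    rintro P (⟨x, hx⟩ | ⟨h, hh⟩)
    · ext ξ : 1
      refine lp.ext (funext fun k => ?_)
      change P _ k = rho Γ a (P ξ k)
      rw [hx, hx]
      change ((al θ k⁻¹ x : Alg (GV Γ)) : HG Γ →L[ℂ] HG Γ) (rho Γ a (ξ k)) = _
      have := (mem_GV _).1 (al θ k⁻¹ x).2 a
      exact (congrArg (fun S : HG Γ →L[ℂ] HG Γ => S (ξ k)) this).symm
    · ext ξ : 1
      refine lp.ext (funext fun k => ?_)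
      change P _ k = rho Γ a (P ξ k)
      rw [hh, hh]
      rfl
  have hW : ∀ h : G, T * opT (fun _ : G => uu (θ h)) 1 zero_le_one (fun _ => norm_sh_le _)
        (Equiv.mulRight h) =
      opT (fun _ : G => uu (θ h)) 1 zero_le_one (fun _ => norm_sh_le _)
        (Equiv.mulRight h) * T := by
    intro h
    refine (Set.mem_centralizer_iff.1 hT _ ?_).symm
    rw [Set.mem_centralizer_iff]
    rintro P (⟨x, hx⟩ | ⟨j, hj⟩)
    · ext ξ : 1
      refine lp.ext (funext fun k => ?_)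
      change P _ k = uu (θ h) (P ξ (k * h))
      rw [hx, hx]
      change (uu (θ k⁻¹) * (x : HG Γ →L[ℂ] HG Γ) * uu (θ k⁻¹)⁻¹) (uu (θ h) (ξ (k * h))) =
        uu (θ h) ((uu (θ (k * h)⁻¹) * (x : HG Γ →L[ℂ] HG Γ) * uu (θ (k * h)⁻¹)⁻¹) (ξ (k * h)))
      have e : (uu (θ k⁻¹) * (x : HG Γ →L[ℂ] HG Γ) * uu (θ k⁻¹)⁻¹) * uu (θ h) =
          uu (θ h) * (uu (θ (k * h)⁻¹) * (x : HG Γ →L[ℂ] HG Γ) * uu (θ (k * h)⁻¹)⁻¹) := by
        have e1 : uu (θ h) * uu (θ (k * h)⁻¹) = uu (θ k⁻¹) := by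
          rw [uu_mul, ← map_mul, mul_inv_rev, mul_inv_cancel_left]
        have e2 : uu (θ k⁻¹)⁻¹ * uu (θ h) = uu (θ (k * h)⁻¹)⁻¹ := by
          rw [uu_mul, ← map_inv, ← map_inv, ← map_mul, inv_inv, inv_inv]
        calc (uu (θ k⁻¹) * (x : HG Γ →L[ℂ] HG Γ) * uu (θ k⁻¹)⁻¹) * uu (θ h)
            = uu (θ k⁻¹) * (x : HG Γ →L[ℂ] HG Γ) * (uu (θ k⁻¹)⁻¹ * uu (θ h)) := by
              noncomm_ring
          _ = (uu (θ h) * uu (θ (k * h)⁻¹)) * (x : HG Γ →L[ℂ] HG Γ) * uu (θ (k * h)⁻¹)⁻¹ := by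
              rw [e1, e2]
          _ = _ := by noncomm_ring
      exact congrArg (fun S : HG Γ →L[ℂ] HG Γ => S (ξ (k * h))) e
    · ext ξ : 1
      refine lp.ext (funext fun k => ?_)
      change P _ k = uu (θ h) (P ξ (k * h))
      rw [hj, hj]
      change uu (θ h) (ξ (j⁻¹ * k * h)) = uu (θ h) (ξ (j⁻¹ * (k * h)))
      rw [mul_assoc]
  have hP : ∀ g : Γ, T * opT (fun k : G => lam Γ (θ k⁻¹ g)) 1 zero_le_one
        (fun _ => norm_sh_le _) 1 =
      opT (fun k : G => lam Γ (θ k⁻¹ g)) 1 zero_le_one (fun _ => norm_sh_le _) 1 * T := by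
    intro g
    refine hTM (la g) _ ?_
    intro ξ k
    change lam Γ (θ k⁻¹ g) (ξ k) = ((adE (θ k⁻¹) (la g) : Alg (GV Γ)) : HG Γ →L[ℂ] HG Γ) (ξ k)
    rw [adE_la, la_val]
  -- matrix coefficients
  set t : G → G → HG Γ := fun m n => T (lp.single 2 n (de 1)) m with ht
  have opS : ∀ (A : G → (HG Γ →L[ℂ] HG Γ)) (hA : ∀ g, ‖A g‖ ≤ 1) (π : Equiv.Perm G) (n : G)
      (z : HG Γ), opT A 1 zero_le_one hA π (lp.single 2 n z) =
        lp.single 2 (π.symm n) (A (π.symm n) z) := by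
    intro A hA π n z
    refine lp.ext (funext fun k => ?_)
    rw [opT_apply, lp.single_apply, lp.single_apply]
    by_cases hk : π k = n
    · have hk' : k = π.symm n := by rw [← hk]; simp
      subst hk'
      simp
    · have hk' : k ≠ π.symm n := fun h' => hk (by rw [h']; simp)
      rw [Pi.single_eq_of_ne hk, Pi.single_eq_of_ne hk', map_zero]
  have h1 : ∀ (m n : G) (a k : Γ), T (lp.single 2 n (de a)) m k = t m n (k * a⁻¹) := by
    intro m n a k
    have e : opT (fun _ : G => rho Γ a⁻¹) 1 zero_le_one (fun _ => norm_sh_le _) 1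
        (lp.single 2 n (de 1)) = lp.single 2 n (de a) := by
      refine (opS _ _ _ n _).trans ?_
      have e0 : rho Γ a⁻¹ (de 1) = de a := by rw [rho_de]; simp
      exact congrArg (fun z : HG Γ => (lp.single 2 n z : L2 G (HG Γ))) e0
    have h := congrArg (fun S : L2 G (HG Γ) →L[ℂ] L2 G (HG Γ) => S (lp.single 2 n (de 1)))
      (hY a⁻¹)
    have h' : T (lp.single 2 n (de a)) = (opT (fun _ : G => rho Γ a⁻¹) 1 zero_le_one
        (fun _ => norm_sh_le _) 1) (T (lp.single 2 n (de 1))) := (congrArg T e).symm.trans h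
    have h'' := congrArg (fun ξ : L2 G (HG Γ) => ξ m k) h'
    exact h''
  have h2 : ∀ (m n : G) (g k : Γ), t m n (k * (θ n⁻¹ g)⁻¹) = t m n ((θ m⁻¹ g)⁻¹ * k) := by
    intro m n g k
    have e : opT (fun k : G => lam Γ (θ k⁻¹ g)) 1 zero_le_one (fun _ => norm_sh_le _) 1
        (lp.single 2 n (de 1)) = lp.single 2 n (de (θ n⁻¹ g)) := by
      refine (opS _ _ _ n _).trans ?_
      have e0 : lam Γ (θ n⁻¹ g) (de 1) = de (θ n⁻¹ g) := by rw [lam_de, mul_one]
      exact congrArg (fun z : HG Γ => (lp.single 2 n z : L2 G (HG Γ))) e0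
    have h := congrArg (fun S : L2 G (HG Γ) →L[ℂ] L2 G (HG Γ) => S (lp.single 2 n (de 1)))
      (hP g)
    have h' : T (lp.single 2 n (de (θ n⁻¹ g))) = (opT (fun k : G => lam Γ (θ k⁻¹ g)) 1
        zero_le_one (fun _ => norm_sh_le _) 1) (T (lp.single 2 n (de 1))) :=
      (congrArg T e).symm.trans h
    have h'' := congrArg (fun ξ : L2 G (HG Γ) => ξ m k) h'
    exact (h1 m n _ k).symm.trans h''
  have h3 : ∀ (m n : G), m ≠ n → t m n = 0 := by
    intro m n hmn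
    ext h
    change t m n h = 0
    refine factor_lemma _ _ (htw m⁻¹ n⁻¹ (fun h' => hmn (inv_injective h')) h) h ?_
    rintro _ ⟨g, rfl⟩
    have := h2 m n g (θ m⁻¹ g * h)
    rw [this, inv_mul_cancel_left]
  have h4 : ∀ (n : G) (h : Γ), h ≠ 1 → t n n h = 0 := by
    intro n h hh
    refine factor_lemma _ _ (hicc h hh) h ?_
    rintro _ ⟨g, rfl⟩
    have := h2 n n ((θ n⁻¹)⁻¹ g) (g * h)
    rw [MulAut.apply_inv_self] at this
    rw [this, inv_mul_cancel_left]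
  have h5 : ∀ n : G, t n n 1 = t 1 1 1 := by
    intro n
    have e : opT (fun _ : G => uu (θ n⁻¹)) 1 zero_le_one (fun _ => norm_sh_le _)
        (Equiv.mulRight n⁻¹) (lp.single 2 1 (de 1)) = lp.single 2 n (de 1) := by
      refine (opS _ _ _ 1 _).trans ?_
      have e1 : (Equiv.mulRight n⁻¹ : Equiv.Perm G).symm 1 = n := by
        simp
      have e2 : uu (θ n⁻¹) (de 1 : HG Γ) = de 1 := by
        rw [uu, de, sh_single]
        simp
      rw [e1]
      exact congrArg (fun z : HG Γ => (lp.single 2 n z : L2 G (HG Γ))) e2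
    have h := congrArg (fun S : L2 G (HG Γ) →L[ℂ] L2 G (HG Γ) => S (lp.single 2 1 (de 1)))
      (hW n⁻¹)
    have h' : T (lp.single 2 n (de 1)) = (opT (fun _ : G => uu (θ n⁻¹)) 1 zero_le_one
        (fun _ => norm_sh_le _) (Equiv.mulRight n⁻¹)) (T (lp.single 2 1 (de 1))) :=
      (congrArg T e).symm.trans h
    have h'' : t n n 1 = t (n * n⁻¹) 1 ((θ n⁻¹)⁻¹ 1) :=
      congrArg (fun ξ : L2 G (HG Γ) => ξ n 1) h'
    rw [h'', mul_inv_cancel, map_one]
  refine ⟨t 1 1 1, ?_⟩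
  refine ext_single (fun n z => ?_)
  have key : T ∘L (lp.singleContinuousLinearMap ℂ (fun _ : G => HG Γ) 2 n) =
      ((t 1 1 1) • (1 : L2 G (HG Γ) →L[ℂ] L2 G (HG Γ))) ∘L
        (lp.singleContinuousLinearMap ℂ (fun _ : G => HG Γ) 2 n) := by
    refine ext_de (fun a => ?_)
    refine lp.ext (funext fun m => ?_)
    refine lp.ext (funext fun k => ?_)
    change T (lp.single 2 n (de a)) m k =
      (t 1 1 1) * ((lp.single 2 n (de a) : L2 G (HG Γ)) m k)
    rw [h1]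
    by_cases hmn : m = n
    · subst hmn
      rw [lp.single_apply_self]
      by_cases hk : k = a
      · subst hk
        rw [mul_inv_cancel, h5, de_self, mul_one]
      · rw [h4 _ _ (fun h' => hk (mul_inv_eq_one.1 h')), de_ne a k hk, mul_zero]
    · rw [h3 m n hmn, lp.single_apply_ne _ _ _ hmn]
      simp
  exact congrArg (fun S : HG Γ →L[ℂ] L2 G (HG Γ) => S z) key

/-- a fixed group element commuting with all supports forbids ergodicity -/
theorem not_ergodic (v : G → Alg (GV Γ)) (hv : ∀ g, v g ∈ unitary (Alg (GV Γ)))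
    (w : Γ) (hw : w ≠ 1) (hfix : ∀ g, θ g w = w)
    (hcomm : ∀ g k, (v g : HG Γ →L[ℂ] HG Γ) (de 1) k ≠ 0 → k * w = w * k) :
    ¬ ErgodicPerturbation (al θ) v := by
  intro herg
  obtain ⟨c, hc⟩ := herg (la w) (by
    intro g
    have e1 : al θ g (la w) = la w := by
      rw [al, adE_la, hfix]
    have e2 : v g * la w = la w * v g :=
      Subtype.ext (comm_lam (v g).2 w (hcomm g))
    rw [e1, e2, mul_assoc, (Unitary.mem_iff.1 (hv g)).2, mul_one])
  have h1 : lam Γ w (de 1) w = c * (de 1 : HG Γ) w := by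
    have := congrArg (fun x : Alg (GV Γ) => (x : HG Γ →L[ℂ] HG Γ) (de 1) w) hc
    exact this
  rw [lam_de, mul_one, de_self, de_ne 1 w hw, mul_zero] at h1
  exact one_ne_zero h1

end

/-- **Main theorem.** -/
theorem main (G : Type) [Group G] [Infinite G] :
    ∃ (H : Type) (_ : NormedAddCommGroup H) (_ : InnerProductSpace ℂ H) (_ : CompleteSpace H)
      (M : VonNeumannAlgebra H) (α : G → (Alg M ≃⋆ₐ[ℂ] Alg M)),
      IsIIOneFactor M ∧ IsAction α ∧ StrictlyOuter α ∧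
      ∀ v : G → Alg M, IsCocycle α v → ¬ ErgodicPerturbation α v := by
  refine ⟨HG (FP (G ⊕ Set G)), inferInstance, inferInstance, inferInstance, GV (FP (G ⊕ Set G)),
    al (th G), ?_, al_action _, ?_, ?_⟩
  · have : Infinite (FP (G ⊕ Set G)) := by
      obtain ⟨m, n, hmn⟩ := exists_pair_ne G
      exact Set.infinite_univ_iff.1 ((twisted_infinite m n hmn 1).mono (Set.subset_univ _))
    exact GV_II (fun h hh => conj_infinite h hh)
  · exact al_outer _ (fun h hh => conj_infinite h hh) (fun m n hmn h => twisted_infinite m n hmn h)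
  · intro v hv
    have hG : Cardinal.aleph0 ≤ Cardinal.mk G := Cardinal.aleph0_le_mk G
    obtain ⟨w, hw, hfix, hcomm⟩ := exists_fixed
      (⋃ g : G, {k | (v g : HG (FP (G ⊕ Set G)) →L[ℂ] HG (FP (G ⊕ Set G))) (de 1) k ≠ 0}) (by
        refine (Cardinal.mk_iUnion_le _).trans ?_
        refine (mul_le_mul' le_rfl (ciSup_le' (fun g => ?_))).trans
          (Cardinal.mul_aleph0_eq hG).le
        exact Cardinal.le_aleph0_iff_set_countable.2 (countable_supp _))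
    exact not_ergodic (th G) v hv.unitary w hw hfix
      (fun g k hk => hcomm k (Set.mem_iUnion.2 ⟨g, hk⟩))

end Pool.Agent.H95R3.NS
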