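import Mathlib

set_option autoImplicit false

namespace Pool.Agent.H95R3.NS

open scoped ENNReal InnerProductSpace

/-- the Hilbert space `ℓ²(G; H)` -/
abbrev L2 (G H : Type) [NormedAddCommGroup H] : Type := lp (fun _ : G => H) 2

section

variable {G H : Type} [NormedAddCommGroup H] [InnerProductSpace ℂ H]

lemma opT_bd (A : G → (H →L[ℂ] H)) (C : ℝ) (hC0 : 0 ≤ C) (hC : ∀ g, ‖A g‖ ≤ C)
    (π : Equiv.Perm G) (ξ : L2 G H) :
    Summable (fun g => ‖A g (ξ (π g))‖ ^ (2 : ℝ≥0∞).toReal) ∧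
      ∑' g, ‖A g (ξ (π g))‖ ^ (2 : ℝ≥0∞).toReal ≤ (C * ‖ξ‖) ^ (2 : ℝ≥0∞).toReal := by
  have h2 : (0 : ℝ) < (2 : ℝ≥0∞).toReal := by norm_num
  have hs : Summable (fun g => ‖ξ g‖ ^ (2 : ℝ≥0∞).toReal) := (memℓp_gen_iff h2).1 (lp.memℓp ξ)
  have hs2 : Summable (fun g => ‖ξ (π g)‖ ^ (2 : ℝ≥0∞).toReal) := (Equiv.summable_iff π).2 hs
  have hb : ∀ g, ‖A g (ξ (π g))‖ ^ (2 : ℝ≥0∞).toReal ≤
      C ^ (2 : ℝ≥0∞).toReal * ‖ξ (π g)‖ ^ (2 : ℝ≥0∞).toReal := by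
    intro g
    rw [← Real.mul_rpow hC0 (norm_nonneg _)]
    refine Real.rpow_le_rpow (norm_nonneg _) ?_ h2.le
    exact ((A g).le_opNorm _).trans (mul_le_mul_of_nonneg_right (hC g) (norm_nonneg _))
  have hs3 := hs2.mul_left (C ^ (2 : ℝ≥0∞).toReal)
  refine ⟨Summable.of_nonneg_of_le (fun g => by positivity) hb hs3, ?_⟩
  calc ∑' g, ‖A g (ξ (π g))‖ ^ (2 : ℝ≥0∞).toReal
      ≤ ∑' g, C ^ (2 : ℝ≥0∞).toReal * ‖ξ (π g)‖ ^ (2 : ℝ≥0∞).toReal :=
        Summable.tsum_le_tsum hb (Summable.of_nonneg_of_le (fun g => by positivity) hb hs3) hs3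
    _ = C ^ (2 : ℝ≥0∞).toReal * ∑' g, ‖ξ (π g)‖ ^ (2 : ℝ≥0∞).toReal := tsum_mul_left
    _ = C ^ (2 : ℝ≥0∞).toReal * ∑' g, ‖ξ g‖ ^ (2 : ℝ≥0∞).toReal := by
        rw [Equiv.tsum_eq π (fun g => ‖ξ g‖ ^ (2 : ℝ≥0∞).toReal)]
    _ = (C * ‖ξ‖) ^ (2 : ℝ≥0∞).toReal := by
        rw [Real.mul_rpow hC0 (norm_nonneg _), lp.norm_rpow_eq_tsum h2 ξ]

/-- the operator `ξ ↦ (g ↦ A_g (ξ (π g)))` on `ℓ²(G; H)` -/
noncomputable def opT (A : G → (H →L[ℂ] H)) (C : ℝ) (hC0 : 0 ≤ C) (hC : ∀ g, ‖A g‖ ≤ C)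
    (π : Equiv.Perm G) : L2 G H →L[ℂ] L2 G H :=
  LinearMap.mkContinuous
    { toFun := fun ξ => ⟨fun g => A g (ξ (π g)),
        (memℓp_gen_iff (by norm_num)).2 (opT_bd A C hC0 hC π ξ).1⟩
      map_add' := by
        intro x y
        ext g
        exact (A g).map_add (x (π g)) (y (π g))
      map_smul' := by
        intro c x
        ext g
        exact (A g).map_smul c (x (π g)) } C
    (by
      intro ξ
      refine lp.norm_le_of_tsum_le (by norm_num) (by positivity) ?_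
      exact (opT_bd A C hC0 hC π ξ).2)

@[simp] lemma opT_apply (A : G → (H →L[ℂ] H)) (C : ℝ) (hC0 : 0 ≤ C) (hC : ∀ g, ‖A g‖ ≤ C)
    (π : Equiv.Perm G) (ξ : L2 G H) (g : G) : opT A C hC0 hC π ξ g = A g (ξ (π g)) := rfl

/-- the permutation operator `(sh π ξ)(g) = ξ (π g)` -/
noncomputable def sh (H : Type) [NormedAddCommGroup H] [InnerProductSpace ℂ H] {G : Type}
    (π : Equiv.Perm G) : L2 G H →L[ℂ] L2 G H :=
  opT (fun _ => ContinuousLinearMap.id ℂ H) 1 zero_le_one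
    (fun _ => ContinuousLinearMap.norm_id_le) π

@[simp] lemma sh_apply (π : Equiv.Perm G) (ξ : L2 G H) (g : G) : sh H π ξ g = ξ (π g) := rfl

lemma sh_mul (π ρ : Equiv.Perm G) : sh H π * sh H ρ = sh H (ρ * π) := by
  ext ξ g
  rfl

lemma sh_one : sh H (1 : Equiv.Perm G) = 1 := by
  ext ξ g
  rfl

lemma sh_single [DecidableEq G] (π : Equiv.Perm G) (a : G) (z : H) :
    sh H π (lp.single 2 a z) = lp.single 2 (π.symm a) z := by
  ext g
  rw [sh_apply, lp.single_apply, lp.single_apply]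
  by_cases h : π g = a
  · have h' : g = π.symm a := by rw [← h]; simp
    subst h'
    simp
  · have h' : g ≠ π.symm a := fun h' => h (by rw [h']; simp)
    rw [Pi.single_eq_of_ne h, Pi.single_eq_of_ne h']

variable [CompleteSpace H]

lemma star_sh (π : Equiv.Perm G) : star (sh H π) = sh H π⁻¹ := by
  rw [ContinuousLinearMap.star_eq_adjoint]
  symm
  rw [ContinuousLinearMap.eq_adjoint_iff]
  intro x y
  rw [lp.inner_eq_tsum, lp.inner_eq_tsum]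
  rw [← Equiv.tsum_eq π (fun i => ⟪(sh H π⁻¹ x) i, y i⟫_ℂ)]
  refine tsum_congr (fun i => ?_)
  simp

omit [CompleteSpace H] in
lemma ext_single [DecidableEq G] {F : Type} [NormedAddCommGroup F] [InnerProductSpace ℂ F]
    {S T : L2 G H →L[ℂ] F}
    (h : ∀ g z, S (lp.single 2 g z) = T (lp.single 2 g z)) : S = T := by
  ext ξ
  have hs := lp.hasSum_single (p := 2) (by norm_num) ξ
  have h1 := hs.mapL S
  have h2 := hs.mapL T
  simp only [h] at h1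
  exact h1.unique h2

end

end Pool.Agent.H95R3.NS
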